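import Pool.Agent.H645R3.LMmul
import Pool.Agent.H645R3.Heis

set_option autoImplicit false

open Filter Topology

namespace Pool.Agent.Results.MP_335999_gt.CountableTightness

/-- `G` is locally minimal: some neighbourhood `V` of the identity is such that every Hausdorff
group topology on `G` coarser than the given one in which `V` is still a neighbourhood of the
identity equals the given topology. -/
def LocallyMinimal (G : Type) [Group G] [τ : TopologicalSpace G] : Prop :=
  ∃ V ∈ 𝓝 (1 : G), ∀ σ : TopologicalSpace G,
    @IsTopologicalGroup G σ _ → @T2Space G σ → τ ≤ σ → V ∈ @nhds G σ 1 → σ = τ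

/-- `G` is minimal: no strictly coarser Hausdorff group topology. -/
def Minimal (G : Type) [Group G] [τ : TopologicalSpace G] : Prop :=
  ∀ σ : TopologicalSpace G, @IsTopologicalGroup G σ _ → @T2Space G σ → τ ≤ σ → σ = τ

/-- countable tightness -/
def CountablyTight (X : Type) [TopologicalSpace X] : Prop :=
  ∀ A : Set X, ∀ x ∈ closure A, ∃ B ⊆ A, B.Countable ∧ x ∈ closure B

/-- Full answer: every Hausdorff locally minimal abelian group of countable tightness is
metrizable (so it is Fréchet–Urysohn); without commutativity this fails completely: there is a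
minimal (hence locally minimal) Hausdorff group, nilpotent of class two, of countable tightness
which is not sequential (hence neither Fréchet–Urysohn nor metrizable). -/
theorem result :
    (∀ (G : Type) [CommGroup G] [TopologicalSpace G] [IsTopologicalGroup G] [T2Space G],
      LocallyMinimal G → CountablyTight G → TopologicalSpace.MetrizableSpace G) ∧
    (∃ (H : Type) (_ : Group H) (_ : TopologicalSpace H) (_ : IsTopologicalGroup H)
      (_ : T2Space H),
      (∀ x y z : H, (x * y * x⁻¹ * y⁻¹) * z = z * (x * y * x⁻¹ * y⁻¹)) ∧
      Minimal H ∧ LocallyMinimal H ∧ CountablyTight H ∧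
      ¬ SequentialSpace H ∧ ¬ FrechetUrysohnSpace H ∧ ¬ TopologicalSpace.MetrizableSpace H) := by
  constructor
  · intro G _ _ _ _ hmin ht
    exact H645.metrizable_of_locMin hmin ht
  · refine ⟨H645.Heis.HH, inferInstance, inferInstance, inferInstance, inferInstance, ?_, ?_, ?_,
      ?_, ?_, ?_, ?_⟩
    · intro x y z
      rw [H645.Heis.HH.comm_eq]
      ext
      · simp [add_comm]
      · simp
      · simp
    · intro σ h1 h2 h3
      exact H645.Heis.minimal σ h1 h2 h3
    · exact ⟨Set.univ, univ_mem, fun σ h1 h2 h3 _ => H645.Heis.minimal σ h1 h2 h3⟩
    · exact H645.Heis.tight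
    · exact H645.Heis.not_sequential
    · intro h
      exact H645.Heis.not_sequential inferInstance
    · intro h
      exact H645.Heis.not_sequential inferInstance

end Pool.Agent.Results.MP_335999_gt.CountableTightness
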